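import Pool.Agent.W2helper16.DD.Red

/-!
# Dade's ordinary conjecture for odd primes: only characters in odd Galois orbits, and only modulo 2

Let `p` be an odd prime and `O` a valuation ring of `ℂ` whose maximal ideal contains `p`; blocks, defect
groups and block induction are defined by central characters modulo the maximal ideal of `O`
(`Pool.Agent.H254R3.IN`). For a block `B` of a finite group `G` let `S_d(B)` be Dade's alternating sum
of the numbers `k^d(B_σ)` over the classes of chains of nontrivial `p`-subgroups.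

Proof. Let `B₁ ≠ B₂` be blocks of `G`. By the identity `Pool.Agent.Q90.WR.functional` the sum of an
arbitrary function of the stabilisers over the chains of `G ≀ C₂` is a sum over pairs of chains of `G`
plus a correction at wreath products `G_σ ≀ C₂` and direct products `G_σ × G_σ`. The characters of
`G ≀ C₂` induced from `θ₁ ⊗ θ₂`, `θ_i ∈ B_i`, form a block, and the characters of the stabilisers whose
blocks induce to it are the products of characters of `G_σ`, `G_τ` whose blocks induce to `B₁` and `B₂`
(two products for each pair, since there are two orders), respectively the characters induced from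
them; the correction vanishes. So the sums of the new block are the convolutions of those of `B₁` and
`B₂`. For `B₂ = σ(B₁)`, `σ` a field automorphism, the sums of `B₂` are those of `B₁`. This reduces the
conjecture to blocks with an odd number of conjugates; for these, the conjugates of a character `θ` of
`G_σ` whose block induces to `B` are distributed evenly among the conjugates of `B`, hence, if `θ` has
an even number of conjugates, an even number of them induces to `B`, and modulo `2` only the characters
with an odd number of conjugates remain. Now parity decides (`Pool.Agent.Q90.WR.bd_one`).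
-/

set_option autoImplicit false

noncomputable section

namespace Pool.Agent.Results.MP_3f89b9_al.OddGaloisOrbits

open Pool.Agent.Y63.KR (alternatingSum chainSetoid chainStabilizer)
open Pool.Agent.Q90.WR (Wr WrN WrSN IndS AdmB)
open Pool.Agent.Q259.BW (WrS)
open Pool.Agent.Q288.MB (WrM gal numConj)
open Pool.Agent.H254R3.IN (IsBlock IsDefectGroup IsIrr)

/-- `k^d(B_σ)` for `G_σ = H`: the number of the irreducible characters `θ` of the subgroup `H` of
`p`-defect `d` with `bl(θ)^G = B`. -/
def kB (p : ℕ) (O : ValuationSubring ℂ) (d : ℕ) {G : Type} [Group G] (B : Set (G → ℂ))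
    (H : Subgroup G) : ℕ :=
  Nat.card {θ : H → ℂ // θ ∈ IndS O B (Subtype.val : H → G) ∧
    ∃ n : ℕ, θ 1 = (n : ℂ) ∧ n.factorization p + d = (Nat.card H).factorization p}

/-- Dade's alternating sum `∑_σ (-1)^|σ| k^d(B_σ)` over representatives `σ` of the `G`-classes of
chains of nontrivial `p`-subgroups of `G`, the empty chain included. -/
def S (p : ℕ) (O : ValuationSubring ℂ) (d : ℕ) {G : Type} [Group G] (B : Set (G → ℂ)) : ℤ :=
  alternatingSum p G (fun H => (kB p O d B H : ℤ))

/-- The same sum without signs. -/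
def T (p : ℕ) (O : ValuationSubring ℂ) (d : ℕ) {G : Type} [Group G] (B : Set (G → ℂ)) : ℕ :=
  ∑ᶠ c : Quotient (chainSetoid p G), kB p O d B (chainStabilizer c.out.1)

/-- The number of Galois conjugates `σ ∘ θ`, `σ` a field automorphism of `ℂ`, of a function `θ`. -/
def galNum {K : Type} (θ : K → ℂ) : ℕ := {χ : K → ℂ | ∃ σ : ℂ ≃+* ℂ, χ = fun g => σ (θ g)}.ncard

/-- The part of `k^d(B_σ)`, `G_σ = H`, counting the characters with an odd number of Galois
conjugates. -/
def kOdd (p : ℕ) (O : ValuationSubring ℂ) (d : ℕ) {G : Type} [Group G] (B : Set (G → ℂ))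
    (H : Subgroup G) : ℕ :=
  Nat.card {θ : H → ℂ // θ ∈ IndS O B (Subtype.val : H → G) ∧ Odd (galNum θ) ∧
    ∃ n : ℕ, θ 1 = (n : ℂ) ∧ n.factorization p + d = (Nat.card H).factorization p}

/-- The number of pairs of a class of chains `σ` and a character `θ` of `G_σ` of defect `d` with
`bl(θ)^G = B` and with an odd number of Galois conjugates. -/
def R (p : ℕ) (O : ValuationSubring ℂ) (d : ℕ) {G : Type} [Group G] (B : Set (G → ℂ)) : ℕ :=
  ∑ᶠ c : Quotient (chainSetoid p G), kOdd p O d B (chainStabilizer c.out.1)

/-- **Dade's ordinary conjecture for odd primes.** Let `p` be an odd prime.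
(1) `S_d(B) = 0` for all `d`, all finite groups `G` with `O_p(G) = 1` and all blocks `B` of `G` with
nontrivial defect groups if and only if `R_d(B)` is even for all `d` and all such `G`, `B` for which
the number of Galois conjugates of `B` is odd.
(2) The same for every class `C` of such pairs `(G, B)` closed under `(G, B) ↦ (G ≀ C₂, B ≀ C₂)` and
under `(G, B) ↦ (G ≀ C₂, B ∘ σ(B))` for field automorphisms `σ` with `σ(σ(B)) = B ≠ σ(B)`.
(3) For different blocks `B₁`, `B₂` of `G`, the characters of `G ≀ C₂` induced from products of a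
character in `B₁` and one in `B₂` form a block `B₁ ∘ B₂`, and
`S_d(B₁ ∘ B₂) = ∑_{i+j=d} S_i(B₁) S_j(B₂)`.
(4) For one block `B` with a nontrivial defect group and an odd number of Galois conjugates of a finite
group `G`: `B` is closed under complex conjugation, `T_d(B)` and `R_d(B)` have the same parity, and
`S_d(B) = 0` for all `d` if and only if the numbers `R_d` of all iterated wreath products `WrSN j B`
are even.
(5) A character with an odd number of Galois conjugates is real-valued. -/
theorem result (p : ℕ) [Fact p.Prime] (hp2 : p ≠ 2) (O : ValuationSubring ℂ)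
    (hpO : (p : ℂ) ∈ O.nonunits) :
    ((∀ (G : Type) [Group G] (B : Set (G → ℂ)), AdmB p O G B → ∀ d, S p O d B = 0) ↔
      ∀ (G : Type) [Group G] (B : Set (G → ℂ)), AdmB p O G B → Odd (numConj B) →
        ∀ d, Even (R p O d B)) ∧
    (∀ C : (G : Type) → Group G → Set (G → ℂ) → Prop,
      (∀ (G : Type) [i : Group G] (B : Set (G → ℂ)), C G i B → AdmB p O G B) →
      (∀ (G : Type) [i : Group G] (B : Set (G → ℂ)), C G i B → C (Wr G) inferInstance (WrS B)) →
      (∀ (G : Type) [i : Group G] (B : Set (G → ℂ)) (σ : ℂ ≃+* ℂ), C G i B →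
        gal σ (gal σ B) = B → gal σ B ≠ B → C (Wr G) inferInstance (WrM B (gal σ B))) →
      ((∀ (G : Type) [i : Group G] (B : Set (G → ℂ)), C G i B → ∀ d, S p O d B = 0) ↔
        ∀ (G : Type) [i : Group G] (B : Set (G → ℂ)), C G i B → Odd (numConj B) →
          ∀ d, Even (R p O d B))) ∧
    (∀ (G : Type) [Group G] [Finite G] (B₁ B₂ : Set (G → ℂ)), IsBlock O B₁ → IsBlock O B₂ →
      B₁ ≠ B₂ → IsBlock O (WrM B₁ B₂) ∧ ∀ d, S p O d (WrM B₁ B₂) =
        ∑ t ∈ Finset.HasAntidiagonal.antidiagonal d, S p O t.1 B₁ * S p O t.2 B₂) ∧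
    (∀ (G : Type) [Group G] [Finite G] (B : Set (G → ℂ)) (D : Subgroup G), IsBlock O B →
      IsDefectGroup p O B D → D ≠ ⊥ → Odd (numConj B) →
      (∀ χ ∈ B, (fun g => starRingEnd ℂ (χ g)) ∈ B) ∧
      (∀ d, Even (T p O d B) ↔ Even (R p O d B)) ∧
      ((∀ d, S p O d B = 0) ↔ ∀ j d : ℕ, Even (R p O d (WrSN j B)))) ∧
    ∀ (K : Type) [Group K] [Finite K] (θ : K → ℂ), IsIrr θ → Odd (galNum θ) →
      ∀ g, starRingEnd ℂ (θ g) = θ g := by
  refine ⟨?_, ?_, ?_, ?_, ?_⟩
  · exact Pool.Agent.W2helper16.DD.red hp2 hpO (fun G i B => AdmB p O G B) (fun G _ B h => h)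
      (fun G _ B h => h.wr hp2 hpO)
      (fun G _ B σ h _ h1 => Pool.Agent.W2helper16.DD.adm_mix hp2 hpO h h1)
  · exact Pool.Agent.W2helper16.DD.red hp2 hpO
  · intro G _ _ B₁ B₂ h1 h2 hne
    have := Fintype.ofFinite G
    exact ⟨Pool.Agent.Q288.MB.wrM_block h1 h2 hne,
      fun d => Pool.Agent.W2helper16.DD.blkDef_mix hp2
        (Pool.Agent.Q90.WR.half_mem hp2 hpO) h1 h2 hne d⟩
  · intro G _ _ B D hB hD hne hodd
    have := Fintype.ofFinite G
    have hg : Pool.Agent.Q90.WR.GoodB O B :=
      ⟨hB, Pool.Agent.Q259.BW.nonunits_of_defect hpO hB hD hne⟩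
    exact ⟨Pool.Agent.Q288.MB.real_of_odd hB.irr hodd,
      fun d => Pool.Agent.W2helper16.DD.blkR_parity hp2 hpO hB hodd d,
      Pool.Agent.W2helper16.DD.one_block hp2 hpO G B hg hodd⟩
  · exact fun K _ _ θ hθ h g => Pool.Agent.W2helper16.DD.real_of_galNum hθ h g

end Pool.Agent.Results.MP_3f89b9_al.OddGaloisOrbits
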